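import Pool.Agent.H586R2.Stamp.Main

/-!
# Minimising the total crease width of a paper strip is in P
-/

namespace Pool.Agent.Results.MP_868dd5_lc.MinTotalCreaseWidthInP

open Pool.Agent.NPC Pool.Agent.H586R2.Stamp

/-- There is a polynomial-time algorithm which, given an MV string `s` (a bit string), outputs a
folded state to unit length consistent with `s` of least total crease width (as the list of the
segments from bottom to top); and the decision version (is there a consistent folded state of total
crease width below `k`) is in P. -/
theorem result :
    (∃ (F : List Bool → List Bool) (sol : List Bool → List ℕ), PolyTime F ∧ ∀ s : List Bool,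
      F s = bits (sol s) ∧ IsFolded s.length (sol s) ∧ Consistent s (sol s) ∧
      ∀ l, IsFolded s.length l → Consistent s l →
        totalWidth s.length (sol s) ≤ totalWidth s.length l) ∧
    InPP (fun a : List Bool × ℕ => ∃ l, IsFolded a.1.length l ∧ Consistent a.1 l ∧
      totalWidth a.1.length l < a.2) := by
  refine ⟨⟨fun s => bits (answer s), answer, polyTime_bits poly_answer, fun s => ⟨rfl, ?_⟩⟩,
    inPP_of poly_decide fun a => decide_spec a.1 a.2⟩
  obtain ⟨x, -, h2, h3, h4, h5, h6⟩ := answer_spec s
  rw [h2]
  exact ⟨h3, h4, fun l hl hl' => by rw [h5]; exact h6 l hl hl'⟩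

end Pool.Agent.Results.MP_868dd5_lc.MinTotalCreaseWidthInP
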